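import Pool.Agent.J4H91.AC.Circ

/-!
# Clique minors in Cayley graphs of abelian groups of bounded degree

Let `Γ` be an abelian group and `S` a set of jumps.  The Cayley graph `circulantGraph S` of Mathlib has
the vertex set `Γ`, and `u ≠ v` are adjacent if `u - v` or `v - u` is in `S`.  We prove Q1 (Hadwiger's
conjecture up to one) for the following Cayley graphs.

1. For every `m` there is `R` such that Q1 holds for all `S` with at most `m` elements in a finite abelian
  group, not all of order at most `R`, such that no jump of order at most `R` is in a triangle.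
2. For every `m`, Q1 holds for all but finitely many connected triangle-free Cayley graphs of finite abelian
  groups with at most `m` jumps.
3. Q1 holds if there are at most `m` jumps, all of order larger than `m (m + 1) ^ m`; in particular,
4. Q1 holds for all circulant graphs of prime order `p > m (m + 1) ^ m` with at most `m` jumps.
5. The circulant graph of order `n` whose jumps are the positive integers `d_1 < … < d_m = N` is
  `(m + 2)`-colourable and has a minor `K_{m+1}` if `n ≥ (m + 1) N`.  If `n ≥ (m + 2) N` and `N - d` is not a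
  jump for some jump `d < N`, then it has a minor `K_{m+2}`; so it satisfies Hadwiger's conjecture.
6. The general criterion: there is a homomorphism `π` to a cyclic group of order `q` such that
  `π (s) ∈ {-μ, …, μ}` for all jumps `s`, where `q ≥ (c + 1) μ`, `c` is the number of jumps with
  `π (s) > 0` or `π (s) = 0`, and some jump with `π (s) = μ` is not in a triangle with a jump of the kernel.  Then
  the graph is `(c + 2)`-colourable and `K_{c+1}` is a minor.

Proof of 6.  *Colouring* (`Greedy.lean`).  The levels `π (x)` order the vertices cyclically, and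
every vertex has at most `c` predecessors.  For `i = 0, …, c` the colour `i` is not used on the levels
`i μ, …, (i + 1) μ - 1`; starting after this gap, a vertex gets the colour `i` if it has none of
the colours `0, …, i - 1` and no predecessor of colour `i`.  All the other vertices get the colour `c + 1`.  Such a
vertex has predecessors in all the first `c + 1` colours but at most one, so all its predecessors have
one of these colours.
*Minor* (`Minor.lean`).  Let `s` be a longest jump.  The paths `w + ⟨s⟩`, `w` another jump, are all adjacent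
to all vertices `a s`; and the latter form a path.
Then 1 to 4 follow by the pigeonhole principle in the dual group (`Dual.lean`).
-/

set_option autoImplicit false

namespace Pool.Agent.Results.MP_b47bfb_co.AbelianCayleyGraphs

open SimpleGraph Pool.Agent.J4H91.AC

/-- Q1 for the graph `G`: if `G` has no proper colouring with `k` colours, then `K_k` is a minor. -/
def OffByOne {V : Type} (G : SimpleGraph V) : Prop := ∀ k : ℕ, ¬ G.Colorable k → HasCliqueMinor G k

/-- Hadwiger's conjecture for the graph `G`: if `G` has no proper colouring with `k` colours, then `K_{k+1}` is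
a minor. -/
def Hadwiger {V : Type} (G : SimpleGraph V) : Prop :=
  ∀ k : ℕ, ¬ G.Colorable k → HasCliqueMinor G (k + 1)

lemma offByOne {V : Type} {G : SimpleGraph V} {c : ℕ} (h1 : G.Colorable (c + 2))
    (h2 : HasCliqueMinor G (c + 1)) : OffByOne G := by
  intro k hk
  refine h2.mono ?_
  by_contra hlt
  exact hk (h1.mono (by omega))

lemma hadwiger {V : Type} {G : SimpleGraph V} {c : ℕ} (h1 : G.Colorable (c + 2))
    (h2 : HasCliqueMinor G (c + 2)) : Hadwiger G := by
  intro k hk
  refine h2.mono ?_
  by_contra hlt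
  exact hk (h1.mono (by omega))

lemma triangle {Γ : Type} [AddCommGroup Γ] (S : Set Γ) (h : (circulantGraph S).CliqueFree 3)
    (x y z : Γ) (hx : x ∈ S ∨ -x ∈ S) (hy : y ∈ S ∨ -y ∈ S) (hz : z ∈ S ∨ -z ∈ S)
    (hx0 : x ≠ 0) (hy0 : y ≠ 0) (hz0 : z ≠ 0) (hxyz : x + y + z = 0) : False := by
  classical
  have hz' : z = -(x + y) := by rw [eq_neg_iff_add_eq_zero, add_comm]; exact hxyz
  have hxy0 : x + y ≠ 0 := fun e => hz0 (by rw [hz', e, neg_zero])
  refine h {0, x, x + y} ?_
  rw [is3Clique_iff]
  refine ⟨0, x, x + y, ?_, ?_, ?_, rfl⟩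
  · rw [circulantGraph_adj]
    exact ⟨hx0.symm, by rw [zero_sub, sub_zero]; exact hx.symm⟩
  · rw [circulantGraph_adj]
    refine ⟨fun e => hxy0 e.symm, ?_⟩
    rw [zero_sub, sub_zero, ← hz']
    rw [hz', neg_neg] at hz
    rw [hz']
    exact hz
  · rw [circulantGraph_adj]
    refine ⟨fun e => hy0 (by simpa using e.symm), ?_⟩
    rw [add_sub_cancel_left, sub_add_cancel_left]
    exact hy.symm

/-- **Clique minors in Cayley graphs of abelian groups.** -/
theorem result :
    -- (1) jumps of small order are not in triangles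
    (∀ m : ℕ, ∃ R : ℕ, ∀ (Γ : Type) [AddCommGroup Γ] [Finite Γ] (S : Set Γ), S.ncard ≤ m →
      (∃ s ∈ S, R < addOrderOf s) →
      (∀ x y z : Γ, (x ∈ S ∨ -x ∈ S) → (y ∈ S ∨ -y ∈ S) → (z ∈ S ∨ -z ∈ S) →
        x ≠ 0 → y ≠ 0 → z ≠ 0 → x + y + z = 0 → R < addOrderOf x) →
      OffByOne (circulantGraph S)) ∧
    -- (2) connected, triangle-free, large
    (∀ m : ℕ, ∃ n₀ : ℕ, ∀ (Γ : Type) [AddCommGroup Γ] [Finite Γ] (S : Set Γ), S.ncard ≤ m →
      AddSubgroup.closure S = ⊤ → n₀ < Nat.card Γ → (circulantGraph S).CliqueFree 3 →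
      OffByOne (circulantGraph S)) ∧
    -- (3) all jumps have large order
    (∀ (m : ℕ) (Γ : Type) [AddCommGroup Γ] [Finite Γ] (S : Set Γ), S.ncard ≤ m →
      (∀ s ∈ S, s ≠ 0 → m * (m + 1) ^ m < addOrderOf s) → OffByOne (circulantGraph S)) ∧
    -- (4) circulant graphs of prime order
    (∀ m p : ℕ, p.Prime → m * (m + 1) ^ m < p → ∀ S : Set (ZMod p), S.ncard ≤ m →
      OffByOne (circulantGraph S)) ∧
    -- (5) circulant graphs with short jumps
    (∀ (n N : ℕ) (D : Finset ℕ), N ∈ D → (∀ d ∈ D, 1 ≤ d ∧ d ≤ N) → (D.card + 1) * N ≤ n →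
      (circulantGraph ((fun d : ℕ => (d : ZMod n)) '' (D : Set ℕ))).Colorable (D.card + 2) ∧
      HasCliqueMinor (circulantGraph ((fun d : ℕ => (d : ZMod n)) '' (D : Set ℕ))) (D.card + 1) ∧
      OffByOne (circulantGraph ((fun d : ℕ => (d : ZMod n)) '' (D : Set ℕ))) ∧
      ((D.card + 2) * N ≤ n → (∃ d ∈ D, d ≠ N ∧ N - d ∉ D) →
        HasCliqueMinor (circulantGraph ((fun d : ℕ => (d : ZMod n)) '' (D : Set ℕ))) (D.card + 2) ∧
        Hadwiger (circulantGraph ((fun d : ℕ => (d : ZMod n)) '' (D : Set ℕ))))) ∧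
    -- (6) the criterion
    (∀ (Γ : Type) [AddCommGroup Γ] (q : ℕ) (π : Γ →+ ZMod q) (D T : Finset Γ) (s : Γ), 1 ≤ q →
      s ∈ D → (∀ d ∈ D, 1 ≤ (π d).val ∧ (π d).val ≤ (π s).val) →
      (∀ t ∈ T, π t = 0 ∧ t ≠ 0 ∧ -t ∈ T ∧ s + t ∉ D) →
      (D.card + T.card + 1) * (π s).val ≤ q →
      (circulantGraph ((D : Set Γ) ∪ (T : Set Γ))).Colorable (D.card + T.card + 2) ∧
      HasCliqueMinor (circulantGraph ((D : Set Γ) ∪ (T : Set Γ))) (D.card + T.card + 1) ∧
      OffByOne (circulantGraph ((D : Set Γ) ∪ (T : Set Γ)))) := by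
  refine ⟨?_, ?_, ?_, ?_, ?_, ?_⟩
  · intro m
    refine ⟨scale m (m + 1), fun Γ _ _ S hS hex htri => ?_⟩
    obtain ⟨c, h1, h2⟩ := some_large_order m S hS hex htri
    exact offByOne h1 h2
  · intro m
    refine ⟨(scale m (m + 1)) ^ m, fun Γ _ _ S hS hgen hcard hfree => ?_⟩
    obtain ⟨c, h1, h2⟩ := some_large_order m S hS (connected_large m S hS hgen hcard)
      (fun x y z hx hy hz hx0 hy0 hz0 h => (triangle S hfree x y z hx hy hz hx0 hy0 hz0 h).elim)
    exact offByOne h1 h2
  · intro m Γ _ _ S hS hord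
    obtain ⟨c, _, h1, h2⟩ := large_order m S hS hord
    exact offByOne h1 h2
  · intro m p hp hmp S hS
    have : NeZero p := ⟨hp.ne_zero⟩
    obtain ⟨c, _, h1, h2⟩ := large_order m S hS (by
      intro s _ hs0
      have hdvd : addOrderOf s ∣ p := by
        have := addOrderOf_dvd_natCard s
        rwa [Nat.card_zmod] at this
      rcases (Nat.dvd_prime hp).1 hdvd with h | h
      · exact absurd (AddMonoid.addOrderOf_eq_one_iff.1 h) hs0
      · rw [h]; exact hmp)
    exact offByOne h1 h2
  · intro n N D hN hD hn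
    obtain ⟨h1, h2⟩ := circ_main n D N hN hD hn
    refine ⟨h1, h2, offByOne h1 h2, ?_⟩
    rintro hn' ⟨d, hd, hdN, hd'⟩
    have h3 := circ_asym n D N hN hD hn' d hd hdN hd'
    exact ⟨h3, hadwiger h1 h3⟩
  · intro Γ _ q π D T s hq1 hs hD hT hq
    have : NeZero q := ⟨by omega⟩
    have h1 := criterion_colorable q (π s).val π D T hD (fun t ht => ⟨(hT t ht).1, (hT t ht).2.2.1⟩) hq
    have h2 := criterion_minor q π D T s hs hD (fun t ht => ⟨(hT t ht).1, (hT t ht).2.2.1⟩)
      (fun h => (hT 0 h).2.1 rfl) (fun t ht => (hT t ht).2.2.2) hq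
    exact ⟨h1, h2, offByOne h1 h2⟩

end Pool.Agent.Results.MP_b47bfb_co.AbelianCayleyGraphs
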