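import Mathlib

/-!
# Hadwiger's conjecture for all direct products

The direct product (tensor, categorical or Kronecker product) `G × H` of two graphs has the pairs of a
vertex of `G` and a vertex of `H` as vertices; `(g, h)` and `(g', h')` are adjacent if `g`, `g'` are adjacent
in `G` and `h`, `h'` are adjacent in `H`.

**Theorem.**  All direct products of two (or more) finite graphs satisfy Hadwiger's conjecture, and
hence Q1.  In fact, `K_m` is a minor of `G × H` for `m = min(Δ(G), Δ(H)) + 1`, where `Δ` is the maximum degree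
(if both graphs have an edge), and so for `m = min(χ(G), χ(H))`, which is an upper bound for
`χ(G × H)`.  More generally every graph that contains `G × H` as a subgraph and that can be coloured with
`min(Δ(G), Δ(H)) + 1` colours satisfies the conjecture.

Proof.  Let `x`, `y` be vertices of `G` and `H` with at least `k` neighbours.  In `G × H` every vertex `(x, h)`
with `h` a neighbour of `y` is adjacent to every vertex `(g, y)` with `g` a neighbour of `x`.  So `K_{k,k}` is a
subgraph; contract the edges of a matching with `k - 1` edges.  A graph that is not `k`-colourable has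
a vertex of degree at least `k`.
-/

set_option autoImplicit false

namespace Pool.Agent.Results.MP_b47bfb_co.DirectProducts

/-- `K_m` is a minor of `G`: there are `m` pairwise disjoint vertex sets, each inducing a connected
subgraph, with an edge of `G` between any two of them. -/
def HasCliqueMinor {V : Type} (G : SimpleGraph V) (m : ℕ) : Prop :=
  ∃ B : Fin m → Set V, (∀ i, (G.induce (B i)).Connected) ∧
    (∀ i j, i ≠ j → Disjoint (B i) (B j)) ∧
    ∀ i j, i ≠ j → ∃ u ∈ B i, ∃ v ∈ B j, G.Adj u v

/-- The direct product of two graphs: `(g, h)` and `(g', h')` are adjacent if `g`, `g'` are adjacent in `G` and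
`h`, `h'` are adjacent in `H`. -/
def directProduct {V W : Type} (G : SimpleGraph V) (H : SimpleGraph W) : SimpleGraph (V × W) where
  Adj p q := G.Adj p.1 q.1 ∧ H.Adj p.2 q.2
  symm := ⟨fun _ _ h => ⟨h.1.symm, h.2.symm⟩⟩
  loopless := ⟨fun _ h => G.loopless.irrefl _ h.1⟩

/-- Greedy colouring: a finite graph all of whose vertices have less than `k` neighbours is
`k`-colourable. -/
lemma colorable_of_degree {V : Type} [Finite V] (G : SimpleGraph V) (k : ℕ)
    (h : ∀ v, (G.neighborSet v).ncard < k) : G.Colorable k := by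
  classical
  have _ := Fintype.ofFinite V
  rcases isEmpty_or_nonempty V with hV | ⟨⟨v0⟩⟩
  · exact ⟨SimpleGraph.Coloring.mk (fun v => (hV.false v).elim) (fun {v} => (hV.false v).elim)⟩
  have hk : 0 < k := lt_of_le_of_lt (Nat.zero_le _) (h v0)
  have key : ∀ S : Finset V, ∃ f : V → Fin k, ∀ u ∈ S, ∀ v ∈ S, G.Adj u v → f u ≠ f v := by
    intro S
    induction S using Finset.induction_on with
    | empty => exact ⟨fun _ => ⟨0, hk⟩, by simp⟩
    | insert a S ha ih =>
      obtain ⟨f, hf⟩ := ih
      have hlt : ((G.neighborSet a).toFinite.toFinset.image f).card < (Finset.univ : Finset (Fin k)).card := by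
        refine lt_of_le_of_lt Finset.card_image_le ?_
        rw [Finset.card_univ, Fintype.card_fin, ← Set.ncard_eq_toFinset_card]
        exact h a
      obtain ⟨c, _, hc⟩ := Finset.exists_mem_notMem_of_card_lt_card hlt
      have hc' : ∀ u, G.Adj a u → f u ≠ c := by
        intro u hu e
        apply hc
        rw [Finset.mem_image]
        exact ⟨u, by simpa using hu, e⟩
      refine ⟨Function.update f a c, ?_⟩
      intro u hu v hv huv
      rw [Finset.mem_insert] at hu hv
      by_cases hua : u = a
      · subst hua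
        have hva : v ≠ u := fun e => G.loopless.irrefl _ (e ▸ huv)
        rw [Function.update_self, Function.update_of_ne hva]
        exact (hc' v huv).symm
      · by_cases hva : v = a
        · subst hva
          rw [Function.update_self, Function.update_of_ne hua]
          exact hc' u huv.symm
        · rw [Function.update_of_ne hua, Function.update_of_ne hva]
          exact hf u (hu.resolve_left hua) v (hv.resolve_left hva) huv
  obtain ⟨f, hf⟩ := key Finset.univ
  exact ⟨SimpleGraph.Coloring.mk f (fun {u v} huv => hf u (Finset.mem_univ _) v (Finset.mem_univ _) huv)⟩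

/-- A graph with a subgraph `K_{m+1,m+1}` has a minor `K_{m+2}`. -/
lemma minor_of_biclique {U : Type} (F : SimpleGraph U) (m : ℕ) (a b : Fin (m + 1) → U)
    (ha : Function.Injective a) (hb : Function.Injective b) (hab : ∀ i j, F.Adj (a i) (b j)) :
    HasCliqueMinor F (m + 2) := by
  have hne : ∀ i j, a i ≠ b j := fun i j e => F.loopless.irrefl _ (e ▸ hab i j)
  let B : Fin (m + 2) → Set U := fun i => {x | (∃ j : Fin (m + 1), x = a j ∧ j.val = i.val) ∨
    ∃ j : Fin (m + 1), x = b j ∧ (j.val = i.val ∧ j.val < m ∨ j.val = m ∧ i.val = m + 1)}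
  have hBa : ∀ (i : Fin (m + 2)) (j : Fin (m + 1)), j.val = i.val → a j ∈ B i := fun i j h =>
    Or.inl ⟨j, rfl, h⟩
  have hBb : ∀ (i : Fin (m + 2)) (j : Fin (m + 1)), j.val = i.val → j.val < m → b j ∈ B i :=
    fun i j h h' => Or.inr ⟨j, rfl, Or.inl ⟨h, h'⟩⟩
  have hBl : ∀ (i : Fin (m + 2)) (j : Fin (m + 1)), j.val = m → i.val = m + 1 → b j ∈ B i :=
    fun i j h h' => Or.inr ⟨j, rfl, Or.inr ⟨h, h'⟩⟩
  have hcl : ∀ i, ∀ x ∈ B i, ∀ y ∈ B i, x = y ∨ F.Adj x y := by
    rintro i x (⟨j, rfl, hj⟩ | ⟨j, rfl, hj⟩) y (⟨l, rfl, hl⟩ | ⟨l, rfl, hl⟩)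
    · left; congr 1; apply Fin.ext; omega
    · right; exact hab j l
    · right; exact (hab l j).symm
    · left; congr 1; apply Fin.ext; have := j.isLt; have := l.isLt; omega
  have hnon : ∀ i, (B i).Nonempty := by
    intro i
    by_cases h : i.val < m + 1
    · exact ⟨a ⟨i.val, h⟩, hBa i _ rfl⟩
    · have hi := i.isLt
      exact ⟨b ⟨m, by omega⟩, hBl i _ rfl (by omega)⟩
  have hlt : ∀ i j : Fin (m + 2), i.val < j.val → ∃ u ∈ B i, ∃ v ∈ B j, F.Adj u v := by
    intro i j hij
    have hj := j.isLt
    by_cases h : j.val = m + 1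
    · exact ⟨a ⟨i.val, by omega⟩, hBa i _ rfl, b ⟨m, by omega⟩, hBl j _ rfl h, hab _ _⟩
    · refine ⟨b ⟨i.val, by omega⟩, hBb i _ rfl (by simp only; omega), a ⟨j.val, by omega⟩,
        hBa j _ rfl, (hab _ _).symm⟩
  refine ⟨B, ?_, ?_, ?_⟩
  · intro i
    obtain ⟨z, hz⟩ := hnon i
    have : Nonempty (B i) := ⟨⟨z, hz⟩⟩
    refine ⟨fun u v => ?_⟩
    rcases hcl i u.1 u.2 v.1 v.2 with h | h
    · have : u = v := Subtype.ext h
      rw [this]
    · exact SimpleGraph.Adj.reachable (by simpa using h)
  · intro i j hij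
    have hv : i.val ≠ j.val := fun e => hij (Fin.ext e)
    rw [Set.disjoint_left]
    rintro x (⟨p, rfl, hp⟩ | ⟨p, rfl, hp⟩) (⟨q, hq, hq'⟩ | ⟨q, hq, hq'⟩)
    · have := ha hq; subst this; omega
    · exact hne _ _ hq
    · exact hne _ _ hq.symm
    · have := hb hq; subst this; omega
  · intro i j hij
    have hv : i.val ≠ j.val := fun e => hij (Fin.ext e)
    rcases lt_or_gt_of_ne hv with h | h
    · exact hlt i j h
    · obtain ⟨u, hu, v, hv, huv⟩ := hlt j i h
      exact ⟨v, hv, u, hu, huv.symm⟩

/-- `k` distinct elements of a set with at least `k` elements. -/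
lemma exists_inj {V : Type} [Finite V] (S : Set V) (k : ℕ) (h : k ≤ S.ncard) :
    ∃ f : Fin k → V, Function.Injective f ∧ ∀ i, f i ∈ S := by
  classical
  obtain ⟨T, hT, hk⟩ := Set.exists_subset_card_eq h
  have hTf : T.Finite := T.toFinite
  have hc : hTf.toFinset.card = k := by rw [← Set.ncard_eq_toFinset_card T hTf, hk]
  refine ⟨fun i => (hTf.toFinset.equivFin.symm (Fin.cast hc.symm i)).1, ?_, ?_⟩
  · intro i j hij
    have := Subtype.ext hij
    simpa using this
  · intro i
    exact hT (hTf.mem_toFinset.1 (hTf.toFinset.equivFin.symm (Fin.cast hc.symm i)).2)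

/-- The statement about degrees, for graphs containing the direct product. -/
lemma minor_of_degrees {V W : Type} [Finite V] [Finite W] (G : SimpleGraph V) (H : SimpleGraph W)
    (F : SimpleGraph (V × W)) (hF : directProduct G H ≤ F) (m : ℕ) (x : V) (y : W)
    (hx : m + 1 ≤ (G.neighborSet x).ncard) (hy : m + 1 ≤ (H.neighborSet y).ncard) :
    HasCliqueMinor F (m + 2) := by
  obtain ⟨g, hg, hg'⟩ := exists_inj _ _ hx
  obtain ⟨h, hh, hh'⟩ := exists_inj _ _ hy
  refine minor_of_biclique F m (fun i => (x, h i)) (fun j => (g j, y)) ?_ ?_ ?_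
  · intro i j hij
    exact hh (Prod.ext_iff.1 hij).2
  · intro i j hij
    exact hg (Prod.ext_iff.1 hij).1
  · intro i j
    exact hF ⟨hg' j, (hh' i).symm⟩

/-- **Hadwiger's conjecture for direct products.**  Let `G` and `H` be finite graphs, and let `F` be a graph on
the pairs of vertices that contains the direct product `G × H` (for example `F = G × H`).
(1) If `k ≥ 1` and `G` and `H` both have a vertex with at least `k` neighbours, then `K_{k+1}` is a minor of `F`.
(2) If neither `G` nor `H` has a proper colouring with `k` colours, then `K_{k+1}` is a minor of `F`.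
(3) If `G × H` has no proper colouring with `k` colours, then `K_{k+1}` is a minor of `G × H`. -/
theorem result (V W : Type) [Finite V] [Finite W] (G : SimpleGraph V) (H : SimpleGraph W) (k : ℕ) :
    (∀ F : SimpleGraph (V × W), directProduct G H ≤ F → 1 ≤ k →
      (∃ x, k ≤ (G.neighborSet x).ncard) → (∃ y, k ≤ (H.neighborSet y).ncard) →
      HasCliqueMinor F (k + 1)) ∧
    (∀ F : SimpleGraph (V × W), directProduct G H ≤ F → ¬ G.Colorable k → ¬ H.Colorable k →
      HasCliqueMinor F (k + 1)) ∧
    (¬ (directProduct G H).Colorable k → HasCliqueMinor (directProduct G H) (k + 1)) := by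
  have h1 : ∀ F : SimpleGraph (V × W), directProduct G H ≤ F → 1 ≤ k →
      (∃ x, k ≤ (G.neighborSet x).ncard) → (∃ y, k ≤ (H.neighborSet y).ncard) →
      HasCliqueMinor F (k + 1) := by
    intro F hF hk ⟨x, hx⟩ ⟨y, hy⟩
    obtain ⟨m, rfl⟩ : ∃ m, k = m + 1 := ⟨k - 1, by omega⟩
    exact minor_of_degrees G H F hF m x y hx hy
  have h2 : ∀ F : SimpleGraph (V × W), directProduct G H ≤ F → ¬ G.Colorable k → ¬ H.Colorable k →
      HasCliqueMinor F (k + 1) := by
    intro F hF hG hH
    have hx : ∃ x, k ≤ (G.neighborSet x).ncard := by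
      by_contra hcon
      push Not at hcon
      exact hG (colorable_of_degree G k hcon)
    have hy : ∃ y, k ≤ (H.neighborSet y).ncard := by
      by_contra hcon
      push Not at hcon
      exact hH (colorable_of_degree H k hcon)
    rcases Nat.eq_zero_or_pos k with rfl | hk
    · obtain ⟨x, _⟩ := hx
      obtain ⟨y, _⟩ := hy
      refine ⟨fun _ => {(x, y)}, fun i => ?_, fun i j hij => ?_, fun i j hij => ?_⟩
      · have : Nonempty ({(x, y)} : Set (V × W)) := ⟨⟨(x, y), rfl⟩⟩
        refine ⟨fun u v => ?_⟩
        have : u = v := Subsingleton.elim u v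
        rw [this]
      · exact absurd (Fin.ext (by omega)) hij
      · exact absurd (Fin.ext (by omega)) hij
    · exact h1 F hF hk hx hy
  refine ⟨h1, h2, fun hC => h2 _ le_rfl ?_ ?_⟩
  · rintro ⟨c⟩
    exact hC ⟨SimpleGraph.Coloring.mk (fun p => c p.1) (fun {p q} h => c.valid h.1)⟩
  · rintro ⟨c⟩
    exact hC ⟨SimpleGraph.Coloring.mk (fun p => c p.2) (fun {p q} h => c.valid h.2)⟩

end Pool.Agent.Results.MP_b47bfb_co.DirectProducts
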