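import Pool.Agent.J4H91.AC.Linear2

/-!
# Hadwiger's conjecture for Cayley graphs of torsion-free abelian groups and long Toeplitz graphs

Let `Γ` be an abelian group and `S` a finite or infinite set of elements of infinite order (or zero), for example
any subset of a torsion-free group such as `ℤ`, `ℤ ^ r`, `ℝ ^ r`.  The Cayley graph `circulantGraph S` of Mathlib has
the vertex set `Γ`, and `u ≠ v` are adjacent if `u - v` or `v - u` is in `S`.

1. Every such Cayley graph satisfies Hadwiger's conjecture: if it has no proper colouring with `k` colours,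
  then it has `K_{k+1}` as a minor.  For `Γ = ℤ` these are the integer distance graphs.
2. If `S` is finite, then there is a finite set `Y` of vertices such that all (finite or infinite) induced
  subgraphs that contain a translate of `Y` satisfy Hadwiger's conjecture.
3. The Toeplitz graph with the vertices `0, …, n - 1`, in which `i ≠ j` are adjacent if their distance is
  in `D`, where `D` is a set of `m` positive integers with the maximum `N`, is `(m + 1)`-colourable and has
  `K_{m+1}` as a minor if `n > m N`.  So it satisfies Hadwiger's conjecture.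

Proof.  There is a homomorphism `φ` to `ℚ` that does not vanish at the jumps (of a finite subgraph).  Let `m` be the
number of jumps with `φ > 0`.  Colour greedily in the order of `φ` and use the theorem of De Bruijn and
Erdős: `m + 1` colours suffice.  Let `s` be the jump with the largest `φ (s)`.  For every other positive jump `w` the
path `w, w + s, w + 2 s, …` is adjacent to all vertices `a s`.  These `m - 1` paths are disjoint from each other and
from the path `0, s, 2 s, …`, and give a minor `K_{m+1}`.
-/

set_option autoImplicit false

namespace Pool.Agent.Results.MP_b47bfb_co.JumpsOfInfiniteOrder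

open SimpleGraph Pool.Agent.J4H91.AC

/-- Hadwiger's conjecture for the graph `G`: if `G` has no proper colouring with `k` colours, then `K_{k+1}` is
a minor. -/
def Hadwiger {V : Type} (G : SimpleGraph V) : Prop :=
  ∀ k : ℕ, ¬ G.Colorable k → HasCliqueMinor G (k + 1)

/-- **Hadwiger's conjecture for Cayley graphs of abelian groups with jumps of infinite order.**
(`addOrderOf s = 0` means that `s` has infinite order.) -/
theorem result :
    (∀ (Γ : Type) [AddCommGroup Γ] (S : Set Γ), (∀ s ∈ S, s ≠ 0 → addOrderOf s = 0) →
      Hadwiger (circulantGraph S)) ∧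
    (∀ (Γ : Type) [AddCommGroup Γ] (S : Set Γ), S.Finite → (∀ s ∈ S, s ≠ 0 → addOrderOf s = 0) →
      ∃ Y : Finset Γ, ∀ (g : Γ) (X : Set Γ), (∀ y ∈ Y, g + y ∈ X) →
        Hadwiger ((circulantGraph S).induce X)) ∧
    (∀ (D : Finset ℕ) (N n : ℕ), N ∈ D → (∀ d ∈ D, 1 ≤ d ∧ d ≤ N) → D.card * N < n →
      (toeplitz D n).Colorable (D.card + 1) ∧ HasCliqueMinor (toeplitz D n) (D.card + 1) ∧
        Hadwiger (toeplitz D n)) := by
  refine ⟨fun Γ _ S hS k hk => hadwiger_infinite S hS k hk, fun Γ _ S hfin hS => ?_, ?_⟩
  · obtain ⟨Y, hY⟩ := hadwiger_induced S hfin hS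
    exact ⟨Y, fun g X hX k hk => hY g X hX k hk⟩
  · intro D N n hN hD hn
    obtain ⟨h1, h2⟩ := toeplitz_main D N n hN hD hn
    refine ⟨h1, h2, fun k hk => h2.mono ?_⟩
    by_contra hlt
    exact hk (h1.mono (by omega))

end Pool.Agent.Results.MP_b47bfb_co.JumpsOfInfiniteOrder
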