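import Pool.Agent.J4H23.HR.HostR
import Pool.Agent.J4H23.HR.EquivFull

/-!
# Smoothed analysis of Hadwiger's conjecture

Let `χ` be the chromatic number and `h` the largest order of a clique minor.  Take ANY graph `G` on
`n` vertices, delete every edge independently with probability `ε` (the noise), and let an adversary,
who knows the result `H₀`, change `H₀` further: he may delete edges (a positive proportion of them at
every vertex) and add all the edges of any graph of chromatic number `≤ r`.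

1. Inhomogeneous form: the pairs `e` are edges of `H₀` independently with probabilities
  `p e ≤ 1 - ε`, and all expected degrees into some set `S` from its vertices are at least
  `d ≥ (log n) ^ (1 / 2 + δ)`.  If `r log (1 / ε) ≤ √(log d)`, then with probability `≥ 1 - n ^ (-B)`
  ALL graphs `H` of the adversary satisfy
    `h(H) ≥ c √(log d) / (r log (1 / ε)) χ(H)`.
2. If `χ(G) > d ≥ (log n) ^ (1 / 2 + δ)` and `r log (1 / ε) ≤ c √(log d)`, then with probability
  `≥ 1 - n ^ (-B)` all graphs `H` of the adversary satisfy Hadwiger's conjecture.  (For example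
  `ε = 1/2`: almost all spanning subgraphs `H₀` of `G`; and `ε` may be as small as
  `exp (- c √(log d))`.)
3. The exponent `1 / 2` is optimal unless the conjecture is true: Q1 (and Hadwiger's conjecture) is
  equivalent to the statement that for all graphs `G` on `n ≥ n₀` vertices with
  `χ(G) > √(log₂ n) / 2` at least one in `n` of the spanning subgraphs of `G` satisfies it.

## Proof

*Colouring* (`Greedy2`, `Core`).  Order the vertices such that every vertex has expected degree at most
`κ` to the earlier ones.  Colour greedily with `k / 2` colours; given the past, a vertex has all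
colours used by its earlier neighbours (is bad) with probability at most
`β = exp (- k / 2 exp (- 4 κ log (1 / ε) / k))`.  A vertex with `k / 2` bad earlier neighbours exists
with probability at most `n β ^ (k / 2) exp κ`, by exponential moments; otherwise the bad vertices are
coloured with `k / 2` further colours.  So with high probability `χ(H₀) ≤ k` or `H₀` has a subgraph of
average degree `≥ A k log k / log (1 / ε)`, for all `k ≥ (log n) ^ (1 / 2 + δ)`.

*Minors* (`KtFull`, `Robust`).  The theorem of Kostochka and Thomason is proved in full: average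
degree `a` gives a clique minor of order `c a / √(log a)`.  The dense subgraph survives the deletions, and
`χ(H) ≤ r χ(H₀)`.

*Equivalence* (`EquivFull`).  If `F` is a counterexample, so is `F` joined to `K_s`; a random
subgraph of many disjoint copies of it contains a copy, and is a counterexample.
-/

set_option autoImplicit false

namespace Pool.Agent.Results.MP_b47bfb_co.SmoothedAnalysis

open Finset Classical

/-- `K_m` is a minor of `G`: there are `m` pairwise disjoint vertex sets, each inducing a connected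
subgraph, with an edge of `G` between any two of them. -/
def HasCliqueMinor {V : Type} (G : SimpleGraph V) (m : ℕ) : Prop :=
  ∃ B : Fin m → Set V, (∀ i, (G.induce (B i)).Connected) ∧
    (∀ i j, i ≠ j → Disjoint (B i) (B j)) ∧
    ∀ i j, i ≠ j → ∃ u ∈ B i, ∃ w ∈ B j, G.Adj u w

/-- The probability that the random graph `H` on the vertex set `V`, in which every pair `e` of
different vertices is an edge independently with probability `p e`, has the property `A`. -/
noncomputable def prob {V : Type} [Fintype V] (p : Sym2 V → ℝ) (A : SimpleGraph V → Prop) : ℝ :=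
  ∑ H : SimpleGraph V, if A H then
    ∏ e : Sym2 V, (if e.IsDiag then 1 else if e ∈ H.edgeSet then p e else 1 - p e) else 0

/-- The edge probabilities of the random subgraph of `G` in which every edge of `G` is deleted
independently with probability `ε`. -/
noncomputable def thin {V : Type} (ε : ℝ) (G : SimpleGraph V) : Sym2 V → ℝ :=
  fun e => if e ∈ G.edgeSet then 1 - ε else 0

/-- The adversary: `H` arises from `H₀` by deleting edges, at most `b` of them at every vertex, and by
adding edges which form a graph with an `r`-colouring. -/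
def Near {V : Type} (b : ℝ) (r : ℕ) (H₀ H : SimpleGraph V) : Prop :=
  ∃ D D' : SimpleGraph V, (∀ v, ({u | D'.Adj v u}.ncard : ℝ) ≤ b) ∧ D.Colorable r ∧
    H₀ \ D' ≤ H ∧ H ≤ H₀ ⊔ D

lemma near_dg {V : Type} [Fintype V] (D' : SimpleGraph V) (v : V) :
    ({u | D'.Adj v u}.ncard : ℝ) = (Pool.Agent.J4H23.HR.dg D' univ v : ℝ) := by
  unfold Pool.Agent.J4H23.HR.dg
  congr 1
  rw [Set.ncard_eq_toFinset_card']
  congr 1
  ext u
  simp

/-- **Hadwiger's conjecture for noisy graphs.** -/
theorem result :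
    -- 1. arbitrary edge probabilities
    (∀ δ : ℝ, 0 < δ → ∃ c : ℝ, 0 < c ∧ ∀ B : ℕ, ∃ n₀ : ℕ,
      ∀ (V : Type) [Fintype V] (p : Sym2 V → ℝ) (ε d : ℝ) (r : ℕ), n₀ ≤ Fintype.card V →
      0 < ε → ε ≤ 1 / 2 → (∀ e, 0 ≤ p e ∧ p e ≤ 1 - ε) →
      (Real.log (Fintype.card V)) ^ (1 / 2 + δ) ≤ d →
      (∃ S : Finset V, S.Nonempty ∧ ∀ v ∈ S, d ≤ ∑ u ∈ S.erase v, p s(v, u)) →
      r * Real.log (1 / ε) ≤ √(Real.log d) →
      1 - 1 / (Fintype.card V : ℝ) ^ B ≤ prob p (fun H₀ => ∀ H, Near (d / 8) r H₀ H →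
        ∀ k m : ℕ, (m : ℝ) ≤ c * √(Real.log d) / (r * Real.log (1 / ε)) * k →
          ¬ H.Colorable k → HasCliqueMinor H m)) ∧
    -- 2. noise on an arbitrary graph
    (∀ δ : ℝ, 0 < δ → ∃ c : ℝ, 0 < c ∧ ∀ B : ℕ, ∃ n₀ : ℕ,
      ∀ (V : Type) [Fintype V] (G : SimpleGraph V) (ε : ℝ) (d r : ℕ), n₀ ≤ Fintype.card V →
      (Real.log (Fintype.card V)) ^ (1 / 2 + δ) ≤ d → ¬ G.Colorable d →
      0 < ε → ε ≤ 1 / 2 → r * Real.log (1 / ε) ≤ c * √(Real.log d) →
      1 - 1 / (Fintype.card V : ℝ) ^ B ≤ prob (thin ε G) (fun H₀ => ∀ H, Near (d / 32) r H₀ H →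
        ∀ k : ℕ, ¬ H.Colorable k → HasCliqueMinor H (k + 1))) ∧
    -- 3. the equivalence below the threshold (`j = 0`: Q1, `j = 1`: Hadwiger's conjecture)
    (∀ j : ℕ,
      (∃ n₀ : ℕ, ∀ (V : Type) [Fintype V] (G : SimpleGraph V) (d : ℕ), n₀ ≤ Fintype.card V →
        √(Real.logb 2 (Fintype.card V)) / 2 ≤ d → ¬ G.Colorable d →
        1 / (Fintype.card V : ℝ) ≤ prob (thin (1 / 2) G)
          (fun H => ∀ k : ℕ, ¬ H.Colorable k → HasCliqueMinor H (k + j))) ↔
      ∀ (V : Type) [Fintype V] (G : SimpleGraph V) (k : ℕ), ¬ G.Colorable k →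
        HasCliqueMinor G (k + j)) := by
  refine ⟨?_, ?_, ?_⟩
  · intro δ hδ
    obtain ⟨c, hc, hR⟩ := Pool.Agent.J4H23.HR.t_ROB δ hδ
    refine ⟨c, hc, fun B => ?_⟩
    obtain ⟨n₀, hR⟩ := hR B
    refine ⟨n₀, ?_⟩
    intro V _ p ε d r hn h1 h2 hp h3 h4 h5
    have h6 := hR V p ε d r hn h1 h2 hp h3 h4 h5
    have h7 := Pool.Agent.J4H23.HR.prob_compl p (fun H₀ => ∀ H, Near (d / 8) r H₀ H →
        ∀ k m : ℕ, (m : ℝ) ≤ c * √(Real.log d) / (r * Real.log (1 / ε)) * k →
          ¬ H.Colorable k → HasCliqueMinor H m)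
    have h8 : Pool.Agent.J4H23.HR.prob p (fun H₀ => ¬ ∀ H, Near (d / 8) r H₀ H →
        ∀ k m : ℕ, (m : ℝ) ≤ c * √(Real.log d) / (r * Real.log (1 / ε)) * k →
          ¬ H.Colorable k → HasCliqueMinor H m) ≤ 1 / (Fintype.card V : ℝ) ^ B := by
      refine le_trans (Pool.Agent.J4H23.HR.prob_mono
        (fun e => ⟨(hp e).1, (hp e).2.trans (by linarith)⟩) ?_) h6
      intro H₀ h
      push Not at h
      obtain ⟨H, ⟨D, D', hD', hD, hH1, hH2⟩, k, m, hm, hk, hno⟩ := h
      exact ⟨H, D, D', fun v => by rw [← near_dg]; exact hD' v, hD, hH1, hH2, k, m, hm, hk, hno⟩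
    have h9 : prob p (fun H₀ => ∀ H, Near (d / 8) r H₀ H →
        ∀ k m : ℕ, (m : ℝ) ≤ c * √(Real.log d) / (r * Real.log (1 / ε)) * k →
          ¬ H.Colorable k → HasCliqueMinor H m) =
        Pool.Agent.J4H23.HR.prob p (fun H₀ => ∀ H, Near (d / 8) r H₀ H →
        ∀ k m : ℕ, (m : ℝ) ≤ c * √(Real.log d) / (r * Real.log (1 / ε)) * k →
          ¬ H.Colorable k → HasCliqueMinor H m) := rfl
    rw [h9, h7]
    linarith
  · intro δ hδ
    obtain ⟨c, hc, hR⟩ := Pool.Agent.J4H23.HR.t_HOSTR δ hδ
    refine ⟨c, hc, fun B => ?_⟩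
    obtain ⟨n₀, hR⟩ := hR B
    refine ⟨n₀, ?_⟩
    intro V _ G ε d r hn h1 h2 h3 h4 h5
    have h6 := hR V G ε d r hn h1 h2 h3 h4 h5
    have h7 := Pool.Agent.J4H23.HR.prob_compl (Pool.Agent.J4H23.HR.thin ε G)
      (fun H₀ => ∀ H, Near (d / 32) r H₀ H → ∀ k : ℕ, ¬ H.Colorable k → HasCliqueMinor H (k + 1))
    have h8 : Pool.Agent.J4H23.HR.prob (Pool.Agent.J4H23.HR.thin ε G)
        (fun H₀ => ¬ ∀ H, Near (d / 32) r H₀ H →
          ∀ k : ℕ, ¬ H.Colorable k → HasCliqueMinor H (k + 1)) ≤
        1 / (Fintype.card V : ℝ) ^ B := by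
      refine le_trans (Pool.Agent.J4H23.HR.prob_mono ?_ ?_) h6
      · intro e
        unfold Pool.Agent.J4H23.HR.thin
        split_ifs
        · exact ⟨by linarith, by linarith⟩
        · exact ⟨le_rfl, by norm_num⟩
      · intro H₀ h
        push Not at h
        obtain ⟨H, ⟨D, D', hD', hD, hH1, hH2⟩, k, hk, hno⟩ := h
        exact ⟨H, D, D', fun v => by rw [← near_dg]; exact hD' v, hD, hH1, hH2, k, hk, hno⟩
    have h9 : prob (thin ε G) (fun H₀ => ∀ H, Near (d / 32) r H₀ H →
        ∀ k : ℕ, ¬ H.Colorable k → HasCliqueMinor H (k + 1)) =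
        Pool.Agent.J4H23.HR.prob (Pool.Agent.J4H23.HR.thin ε G)
      (fun H₀ => ∀ H, Near (d / 32) r H₀ H →
        ∀ k : ℕ, ¬ H.Colorable k → HasCliqueMinor H (k + 1)) := rfl
    rw [h9, h7]
    linarith
  · intro j
    constructor
    · rintro ⟨n₀, hT⟩
      apply Pool.Agent.J4H23.HR.t_EQUIVj j
      refine ⟨n₀, ?_⟩
      intro V _ G d hn h1 h2
      have h3 := hT V G d hn h1 h2
      have h4 := Pool.Agent.J4H23.HR.prob_compl (Pool.Agent.J4H23.HR.thin (1 / 2) G)
        (fun H => ∀ k : ℕ, ¬ H.Colorable k → HasCliqueMinor H (k + j))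
      have h5 : Pool.Agent.J4H23.HR.prob (Pool.Agent.J4H23.HR.thin (1 / 2) G)
          (fun H => ∃ k : ℕ, ¬ H.Colorable k ∧ ¬ Pool.Agent.J4H23.HR.HasCliqueMinor H (k + j)) ≤
          Pool.Agent.J4H23.HR.prob (Pool.Agent.J4H23.HR.thin (1 / 2) G)
          (fun H => ¬ ∀ k : ℕ, ¬ H.Colorable k → HasCliqueMinor H (k + j)) := by
        apply Pool.Agent.J4H23.HR.prob_mono (Pool.Agent.J4H23.HR.thin_mem G)
        rintro H ⟨k, hk, hno⟩ hall
        exact hno (hall k hk)
      have h6 : prob (thin (1 / 2) G) (fun H => ∀ k : ℕ, ¬ H.Colorable k →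
          HasCliqueMinor H (k + j)) = Pool.Agent.J4H23.HR.prob
          (Pool.Agent.J4H23.HR.thin (1 / 2) G)
          (fun H => ∀ k : ℕ, ¬ H.Colorable k → HasCliqueMinor H (k + j)) := rfl
      rw [h6, h4] at h3
      linarith
    · intro h
      refine ⟨1, ?_⟩
      intro V _ G d hn _ _
      have h1 : prob (thin (1 / 2) G) (fun H => ∀ k : ℕ, ¬ H.Colorable k →
          HasCliqueMinor H (k + j)) = 1 :=
        Pool.Agent.J4H23.HR.prob_true _ (fun H k hk => h V H k hk)
      rw [h1, div_le_one (by exact_mod_cast hn)]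
      exact_mod_cast hn

end Pool.Agent.Results.MP_b47bfb_co.SmoothedAnalysis
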